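import Pool.Agent.E8helper58.CM.Basic

/-!
# MERGE: the Betti numbers of the link of the new vertex
-/

set_option autoImplicit false

namespace Pool.Agent.E8helper38.CM

open Pool.Agent.W907.SG Pool.Agent.W907.SM
open Pool.Agent.TH652.Dual (triv Sph mem_KK_triv)

open Pool.Agent.E8helper58.CM (SphA NoSqA S_CONEQ S_DEL S_UP S_PUNCT S_MERGE beta_congr)

variable {V : Type} [Fintype V] [LinearOrder V] {G : SimpleGraph V}

/-- nonempty complexes have reduced Betti number zero in degree `-1` -/
theorem beta_zero {A : Set V} {v : V} (hv : v ∈ A) : beta G (triv V) A ∅ 0 = 0 := by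
  have h2 : BB G (triv V) A ∅ 0 = ZZ G (triv V) A ∅ 0 := by
    refine le_antisymm (BB_le_ZZ _ _ _ _ _) ?_
    rintro z ⟨hz, _⟩
    rw [SetLike.mem_coe, mem_KK_triv] at hz
    refine ⟨fun T => if T = {v} then z ∅ else 0, ?_, ?_⟩
    · rw [SetLike.mem_coe, mem_KK_triv]
      intro T hT
      refine if_neg ?_
      rintro rfl
      refine hT ⟨by simp, by simpa using hv, by simp⟩
    · funext T
      rw [bd_apply]
      by_cases hT : T = ∅
      · subst hT
        rw [Finset.sum_eq_single v]
        · have e : (insert v ∅ : Finset V) = {v} := rfl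
          have e2 : (sg v (∅ : Finset V) : ℤ) = 1 := by simp [sg]
          rw [e, if_pos rfl, e2, one_smul]
        · intro b _ hb
          have e : (insert b ∅ : Finset V) ≠ {v} := by
            intro e
            have : b ∈ ({v} : Finset V) := by rw [← e]; simp
            exact hb (by simpa using this)
          rw [if_neg e, smul_zero]
        · intro h; simp at h
      · rw [hz T (fun h => hT (Finset.card_eq_zero.1 h.2.2))]
        refine Finset.sum_eq_zero fun u hu => ?_
        rw [if_neg, smul_zero]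
        intro e
        have hc := congrArg Finset.card e
        rw [Finset.card_insert_of_notMem (by simpa using hu)] at hc
        simp only [Finset.card_singleton] at hc
        exact hT (Finset.card_eq_zero.1 (by omega))
  unfold beta
  rw [h2, Nat.sub_self]

omit [Fintype V] [LinearOrder V] in
theorem lk_empty (G : SimpleGraph V) : lk G ∅ = Set.univ := by
  ext x; simp [lk]

/-- links of vertices in homology spheres -/
theorem SphA.link {m : ℕ} {L : Set V} (h : SphA (m + 1) G L) {t : V} (ht : t ∈ L) :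
    SphA m G (L ∩ G.neighborSet t) := by
  intro S hS hSL i
  have htS : t ∉ S := fun h1 => G.irrefl (hSL (Finset.mem_coe.2 h1)).2
  have hcl : G.IsClique ((insert t S : Finset V) : Set V) := by
    rw [Finset.coe_insert]
    refine hS.insert fun u hu _ => (hSL hu).2
  have hsub : ((insert t S : Finset V) : Set V) ⊆ L := by
    rw [Finset.coe_insert]
    rintro x (rfl | hx)
    · exact ht
    · exact (hSL hx).1
  have h1 := h (insert t S) hcl hsub i
  rw [Finset.card_insert_of_notMem htS] at h1
  have e : L ∩ G.neighborSet t ∩ lk G S = L ∩ lk G (insert t S) := by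
    ext x
    simp only [Set.mem_inter_iff, SimpleGraph.mem_neighborSet, lk, Set.mem_ofPred_eq, Finset.mem_insert]
    constructor
    · rintro ⟨⟨h1, h2⟩, h3⟩
      refine ⟨h1, ?_⟩
      rintro u (rfl | hu)
      · exact h2.symm
      · exact h3 u hu
    · rintro ⟨h1, h2⟩
      exact ⟨⟨h1, (h2 t (Or.inl rfl)).symm⟩, fun u hu => h2 u (Or.inr hu)⟩
  rw [e, h1]
  by_cases hh : i + S.card = m
  · rw [if_pos hh, if_pos (by omega)]
  · rw [if_neg hh, if_neg (by omega)]

theorem t_MERGE (h1 : S_CONEQ) (h2 : S_DEL) (h3 : S_UP) (h4 : S_PUNCT) : S_MERGE := by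
  intro V _ _ G L m s t hL hs ht hst hsq i
  have hne : s ≠ t := hst.ne
  have hLb : ∀ i, beta G (triv V) L ∅ i = if i = m then 1 else 0 := by
    intro i
    have := hL ∅ (by simp) (by simp) i
    rw [lk_empty, Set.inter_univ, Finset.card_empty, Nat.add_zero] at this
    exact this
  obtain ⟨k, rfl⟩ : ∃ k, m = k + 1 := by
    rcases Nat.eq_zero_or_pos m with h0 | h0
    · exfalso
      have e1 := hLb 0
      rw [if_pos h0.symm, beta_zero hs] at e1
      exact absurd e1 (by norm_num)
    · exact ⟨m - 1, by omega⟩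
  -- the punctured sphere
  have hLs : ∀ i, beta G (triv V) (L \ {s}) ∅ i = 0 := h4 V G L (k + 1) hL s hs
  have hLt : ∀ i, beta G (triv V) ((L \ {s}) ∩ G.neighborSet t) ∅ i = 0 := by
    intro i
    have e : (L \ {s}) ∩ G.neighborSet t = (L ∩ G.neighborSet t) \ {s} := by
      ext x; simp only [Set.mem_inter_iff, Set.mem_sdiff]; tauto
    rw [e]
    exact h4 V G _ k (SphA.link hL ht) s ⟨hs, hst.symm⟩ i
  have hP : ∀ i, beta G (triv V) ((L \ {s}) \ {t}) ∅ i = 0 := by
    intro i
    rw [h2 V G (L \ {s}) t ⟨ht, fun e => hne (by simpa using e.symm)⟩ hLt i]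
    exact hLs i
  -- the contraction
  have hadj : ∀ x y : V, x ≠ s → y ≠ s → x ≠ t → y ≠ t → (G.Adj x y ↔ (Pool.Agent.R781.VS.con G s t).Adj x y) := by
    intro x y hx hy hx' hy'
    simp only [Pool.Agent.R781.VS.con]
    constructor
    · intro h; exact ⟨h.ne, hx', hy', Or.inl h⟩
    · rintro ⟨_, _, _, h | h | h⟩
      · exact h
      · exact absurd h.1 hx
      · exact absurd h.1 hy
  have hP' : ∀ i, beta (Pool.Agent.R781.VS.con G s t) (triv V) ((L \ {t}) \ {s}) ∅ i = 0 := by
    intro i
    rw [← beta_congr (G := G) (H := Pool.Agent.R781.VS.con G s t)]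
    · have e : (L \ {t}) \ {s} = (L \ {s}) \ {t} := by
        ext x; simp only [Set.mem_sdiff]; tauto
      rw [e]; exact hP i
    · intro x hx y hy
      exact hadj x y (by simpa using hx.2) (by simpa using hy.2) (by simpa using hx.1.2)
        (by simpa using hy.1.2)
  have hU := h3 V (Pool.Agent.R781.VS.con G s t) (L \ {t}) s ⟨hs, by simpa using hne⟩ hP' i
  rw [h1 V G L s t hs ht hst hsq (i + 1), hLb (i + 1)] at hU
  rw [← hU]
  have e : (L ∩ (G.neighborSet s ∪ G.neighborSet t)) \ {s, t} =
      (L \ {t}) ∩ (Pool.Agent.R781.VS.con G s t).neighborSet s := by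
    ext x
    simp only [Set.mem_inter_iff, Set.mem_sdiff, Set.mem_union, SimpleGraph.mem_neighborSet,
      Set.mem_insert_iff, Set.mem_singleton_iff, Pool.Agent.R781.VS.con, not_or]
    constructor
    · rintro ⟨⟨hx, h⟩, hxs, hxt⟩
      refine ⟨⟨hx, hxt⟩, fun e => hxs e.symm, hne, hxt, ?_⟩
      rcases h with h | h
      · exact Or.inl h
      · exact Or.inr (Or.inl ⟨trivial, h⟩)
    · rintro ⟨⟨hx, hxt⟩, hxs, _, _, h⟩
      refine ⟨⟨hx, ?_⟩, fun e => hxs e.symm, hxt⟩
      rcases h with h | h | h
      · exact Or.inl h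
      · exact Or.inr h.2
      · exact absurd h.1.symm hxs
  rw [e]
  refine beta_congr ?_ i
  intro x hx y hy
  rw [← e] at hx hy
  simp only [Set.mem_sdiff, Set.mem_insert_iff, Set.mem_singleton_iff, not_or] at hx hy
  exact hadj x y hx.2.1 hy.2.1 hx.2.2 hy.2.2

end Pool.Agent.E8helper38.CM
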